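import Pool.Agent.Helper94.AXG.Z10
import Pool.Agent.Helper94.AXW.U11
import Pool.Agent.Helper94.AXW.U15

/-!
# AXV-V1: linear families of polynomials

The polynomials `y_1 P_1 + ... + y_n P_n` with integers `|y_j| ≤ H` form one polynomial with the further
rational variables `(y_j + H) / (2 H)`.
-/

namespace Pool.Agent.Helper94.AXV

open MvPolynomial Pool.Agent.Helper94.AXG Pool.Agent.Helper49.AXQ Pool.Agent.Helper94.AXW

private lemma v1_ex_apply {k D : ℕ} (ν : Fin k → Fin (D + 1)) (i : Fin k) : ex ν i = (ν i : ℕ) := rfl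

private lemma v1_eval {k d : ℕ} {P : MvPolynomial (Fin k) ℂ} (hP : P.totalDegree ≤ d)
    (y : Fin k → ℂ) : eval y P = ∑ ν : Fin k → Fin (d + 1), cf d P ν * ∏ i, y i ^ (ν i : ℕ) := by
  rw [eval_eq']
  have hle : ∀ m ∈ P.support, ∀ i, m i ≤ d := by
    intro m hm i
    refine le_trans ?_ (le_trans (le_totalDegree hm) hP)
    rw [Finsupp.sum]
    by_cases hi : i ∈ m.support
    · exact Finset.single_le_sum (f := fun j => m j) (fun _ _ => Nat.zero_le _) hi
    · rw [Finsupp.notMem_support_iff.mp hi]; exact Nat.zero_le _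
  have hinj : Function.Injective (fun ν : Fin k → Fin (d + 1) => ex ν) := by
    intro ν μ h
    funext i
    apply Fin.ext
    have := DFunLike.congr_fun h i
    simpa [v1_ex_apply] using this
  have hsub : P.support ⊆ Finset.univ.image (fun ν : Fin k → Fin (d + 1) => ex ν) := by
    intro m hm
    rw [Finset.mem_image]
    refine ⟨fun i => ⟨m i, Nat.lt_succ_of_le (hle m hm i)⟩, Finset.mem_univ _, ?_⟩
    ext i
    rfl
  rw [Finset.sum_subset hsub, Finset.sum_image (fun a _ b _ h => hinj h)]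
  · refine Finset.sum_congr rfl (fun ν _ => ?_)
    rfl
  · intro m _ hm
    rw [notMem_support_iff.mp hm, zero_mul]

/-- the value of the reversed polynomial -/
theorem eval_rv_inv {k d : ℕ} {P : MvPolynomial (Fin k) ℂ} (hP : P.totalDegree ≤ d) (z : Fin k → ℂ)
    (hz : ∀ i, z i ≠ 0) : eval (fun i => (z i)⁻¹) (rv d P) = (∏ i, (z i)⁻¹ ^ d) * eval z P := by
  rw [v1_eval hP, Finset.mul_sum]
  unfold rv
  rw [map_sum]
  refine Finset.sum_congr rfl fun ν _ => ?_
  rw [map_mul, eval_C, map_prod]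
  rw [mul_left_comm, ← Finset.prod_mul_distrib]
  congr 1
  refine Finset.prod_congr rfl fun i _ => ?_
  rw [map_pow, eval_X]
  have h2 : (ν i : ℕ) ≤ d := Nat.lt_succ_iff.mp (ν i).2
  have h3 : (z i)⁻¹ ^ d = (z i)⁻¹ ^ (d - (ν i : ℕ)) * (z i)⁻¹ ^ (ν i : ℕ) := by
    rw [← pow_add]
    congr 1
    omega
  rw [h3, mul_assoc, ← mul_pow, inv_mul_cancel₀ (hz i), one_pow, mul_one]

theorem rv_deg {k : ℕ} (d : ℕ) (P : MvPolynomial (Fin k) ℂ) : (rv d P).totalDegree ≤ k * d := by
  unfold rv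
  refine (totalDegree_finsetSum _ _).trans (Finset.sup_le fun ν _ => ?_)
  refine (totalDegree_mul _ _).trans ?_
  rw [totalDegree_C, zero_add]
  refine (totalDegree_finsetProd _ _).trans ?_
  calc ∑ i : Fin k, (X i ^ (d - (ν i : ℕ)) : MvPolynomial (Fin k) ℂ).totalDegree ≤ ∑ _i : Fin k, d := by
        refine Finset.sum_le_sum fun i _ => ?_
        refine (totalDegree_pow _ _).trans ?_
        rw [totalDegree_X, mul_one]
        omega
    _ = k * d := by simp

/-- the polynomial of the family -/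
noncomputable def PV {k n : ℕ} (d : ℕ) (P : Fin n → MvPolynomial (Fin k) ℂ) :
    MvPolynomial (Fin (k + n)) ℂ :=
  ∑ j, (C 2 * X (Fin.natAdd k j) - 1) * rename (Fin.castAdd n) (rv d (P j))

theorem PV_deg {k n : ℕ} (d : ℕ) (P : Fin n → MvPolynomial (Fin k) ℂ) :
    (PV d P).totalDegree ≤ k * d + 1 := by
  unfold PV
  refine (totalDegree_finsetSum _ _).trans (Finset.sup_le fun j _ => ?_)
  refine (totalDegree_mul _ _).trans ?_
  have h1 : ((C 2 * X (Fin.natAdd k j) - 1) : MvPolynomial (Fin (k + n)) ℂ).totalDegree ≤ 1 := by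
    refine (totalDegree_sub _ _).trans (max_le ?_ ?_)
    · refine (totalDegree_mul _ _).trans ?_
      rw [totalDegree_C, zero_add, totalDegree_X]
    · rw [totalDegree_one]
      exact Nat.zero_le 1
  have h2 := (totalDegree_rename_le (Fin.castAdd n) (rv d (P j))).trans (rv_deg d (P j))
  omega

/-- the value of the polynomial of the family -/
theorem eval_PV {k n d : ℕ} {P : Fin n → MvPolynomial (Fin k) ℂ} (hP : ∀ j, (P j).totalDegree ≤ d)
    (z : Fin k → ℂ) (hz : ∀ i, z i ≠ 0) (M : ℂ) (y : Fin n → ℤ) (w : Fin (k + n) → ℂ)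
    (hw : ∀ i, w (Fin.castAdd n i) = (z i)⁻¹)
    (hw' : ∀ j, 2 * w (Fin.natAdd k j) - 1 = ((y j : ℤ) : ℂ) / M) :
    eval w (PV d P) = M⁻¹ * (∏ i, (z i)⁻¹ ^ d) * eval z (∑ j, C ((y j : ℤ) : ℂ) * P j) := by
  unfold PV
  rw [map_sum, map_sum, Finset.mul_sum]
  refine Finset.sum_congr rfl fun j _ => ?_
  have e1 : w ∘ Fin.castAdd n = fun i => (z i)⁻¹ := funext fun i => hw i
  simp only [map_mul, map_sub, map_one, eval_C, eval_X]
  rw [hw' j, eval_rename, e1, eval_rv_inv (hP j) z hz]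
  ring

end Pool.Agent.Helper94.AXV
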