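import Pool.Agent.Helper94.AXV.V1

/-! # AXV-V2: the points -/

namespace Pool.Agent.Helper94.AXV

open MvPolynomial Pool.Agent.Helper94.AXG Pool.Agent.Helper49.AXQ Pool.Agent.Helper94.AXW

/-- the point of `(q, a)` and `y` -/
def pV {k n : ℕ} (H : ℕ) (x : Pt k) (y : Fin n → ℤ) : Pt (k + n) :=
  (2 * H * x.1, Fin.append (fun i => 2 * H * x.2 i) (fun j => x.1 * (y j + H).toNat))

theorem pV_left {k n : ℕ} (H : ℕ) (x : Pt k) (y : Fin n → ℤ) (i : Fin k) :
    (pV H x y).2 (Fin.castAdd n i) = 2 * H * x.2 i := by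
  change (Fin.append (fun i => 2 * H * x.2 i) (fun j => x.1 * (y j + H).toNat) : Fin (k + n) → ℕ)
    (Fin.castAdd n i) = _
  rw [Fin.append_left]

theorem pV_right {k n : ℕ} (H : ℕ) (x : Pt k) (y : Fin n → ℤ) (j : Fin n) :
    (pV H x y).2 (Fin.natAdd k j) = x.1 * (y j + H).toNat := by
  change (Fin.append (fun i => 2 * H * x.2 i) (fun j => x.1 * (y j + H).toNat) : Fin (k + n) → ℕ)
    (Fin.natAdd k j) = _
  rw [Fin.append_right]

theorem xp_left {k n H : ℕ} (hH : 1 ≤ H) (x : Pt k) (y : Fin n → ℤ) (i : Fin k) :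
    xp (pV H x y) (Fin.castAdd n i) = (x.2 i : ℂ) / (x.1 : ℂ) := by
  unfold xp
  rw [pV_left]
  have h1 : (2 * H : ℂ) ≠ 0 := by
    have : (H : ℂ) ≠ 0 := Nat.cast_ne_zero.2 (by omega)
    exact mul_ne_zero two_ne_zero this
  change ((2 * H * x.2 i : ℕ) : ℂ) / ((2 * H * x.1 : ℕ) : ℂ) = _
  push_cast
  rw [mul_div_mul_left _ _ h1]

theorem xp_right {k n H : ℕ} (hH : 1 ≤ H) (x : Pt k) (hx : 1 ≤ x.1) (y : Fin n → ℤ) (j : Fin n)
    (hy : |y j| ≤ (H : ℤ)) : 2 * xp (pV H x y) (Fin.natAdd k j) - 1 = ((y j : ℤ) : ℂ) / (H : ℂ) := by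
  unfold xp
  rw [pV_right]
  have h1 : (H : ℂ) ≠ 0 := Nat.cast_ne_zero.2 (by omega)
  have h2 : (x.1 : ℂ) ≠ 0 := Nat.cast_ne_zero.2 (by omega)
  have h3 : (((y j + H).toNat : ℕ) : ℂ) = (y j : ℂ) + H := by
    have h4 : (((y j + H).toNat : ℕ) : ℤ) = y j + H := Int.toNat_of_nonneg (by
      have := (abs_le.1 hy).1
      omega)
    have h5 : ((((y j + H).toNat : ℕ) : ℤ) : ℂ) = ((y j + H : ℤ) : ℂ) := by rw [h4]
    rw [Int.cast_natCast] at h5
    rw [h5]
    push_cast
    ring
  change 2 * (((x.1 * (y j + H).toNat : ℕ) : ℂ) / ((2 * H * x.1 : ℕ) : ℂ)) - 1 = _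
  push_cast
  rw [h3]
  field_simp
  ring

theorem ND_scale {ι : Type} {J : Finset ι} {q q' : ℕ} {a a' : ι → ℤ} (h : ND J q a)
    (he : ∀ i ∈ J, (a' i : ℚ) / q' = (a i : ℚ) / q) : ND J q' a' := by
  intro C hC N b m t₀ hN hpt hsum
  exact h C hC N b m t₀ hN (fun i hi => (hpt i hi).trans (he i (hC hi))) hsum

theorem adm_pV {k n H : ℕ} (hH : 1 ≤ H) {x : Pt k} (hx : Adm x) (y : Fin n → ℤ)
    (hy : ∀ j, |y j| ≤ (H : ℤ)) : AdmU (KK0 k n) (pV H x y) := by
  obtain ⟨h1, h2, h3, h4⟩ := hx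
  refine ⟨?_, fun s => ?_, ?_⟩
  · change 1 ≤ 2 * H * x.1
    have : 1 ≤ H * x.1 := Nat.mul_pos hH h1
    nlinarith
  · change (pV H x y).2 s ≤ 2 * H * x.1
    refine Fin.addCases (fun i => ?_) (fun j => ?_) s
    · rw [pV_left]
      exact Nat.mul_le_mul_left _ (h2 i).2.1.le
    · rw [pV_right]
      have h5 : (y j + H).toNat ≤ 2 * H := by
        have := (abs_le.1 (hy j)).2
        omega
      calc x.1 * (y j + H).toNat ≤ x.1 * (2 * H) := Nat.mul_le_mul_left _ h5
        _ = 2 * H * x.1 := Nat.mul_comm _ _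
  · have hnd : ND (KK0 k n) x.1 (Fin.append (fun i => ((x.2 i : ℕ) : ℤ)) (fun _ => (0 : ℤ))) := by
      refine ND_of_coprime _ _ h1 _ (fun s hs => ?_) (fun s hs t ht hst => ?_)
      · obtain ⟨i, rfl⟩ := mem_KK0 hs
        rw [Fin.append_left]
        exact Nat.isCoprime_iff_coprime.2 (h2 i).2.2
      · obtain ⟨i, rfl⟩ := mem_KK0 hs
        obtain ⟨j, rfl⟩ := mem_KK0 ht
        have hij : i ≠ j := fun h => hst (by rw [h])
        rw [Fin.append_left, Fin.append_left]
        obtain ⟨a1, a2, -⟩ := h2 i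
        obtain ⟨b1, b2, -⟩ := h2 j
        have c1 := h3 i j hij
        have c2 := h4 i j
        constructor
        · rintro ⟨c, hc⟩
          have hlt : |(x.2 i : ℤ) - x.2 j| < (x.1 : ℤ) := by
            rw [abs_lt]
            constructor <;> omega
          rw [hc, abs_mul] at hlt
          have hc0 : c ≠ 0 := by
            rintro rfl
            rw [mul_zero] at hc
            omega
          have h6 : 1 ≤ |c| := Int.one_le_abs hc0
          have h7 : |(x.1 : ℤ)| = x.1 := abs_of_nonneg (by omega)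
          rw [h7] at hlt
          nlinarith
        · rintro ⟨c, hc⟩
          have hc1 : 0 < c := by
            by_contra h
            push Not at h
            have : (x.1 : ℤ) * c ≤ 0 := mul_nonpos_of_nonneg_of_nonpos (by omega) h
            omega
          have hc2 : c < 2 := by
            by_contra h
            push Not at h
            have : (x.1 : ℤ) * 2 ≤ x.1 * c := mul_le_mul_of_nonneg_left h (by omega)
            omega
          have hc3 : c = 1 := by omega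
          rw [hc3, mul_one] at hc
          omega
    refine ND_scale hnd fun s hs => ?_
    obtain ⟨i, rfl⟩ := mem_KK0 hs
    rw [Fin.append_left, pV_left]
    have e1 : (2 * H : ℚ) ≠ 0 := by
      have : (H : ℚ) ≠ 0 := Nat.cast_ne_zero.2 (by omega)
      exact mul_ne_zero two_ne_zero this
    change (((2 * H * x.2 i : ℕ) : ℤ) : ℚ) / ((2 * H * x.1 : ℕ) : ℚ) = _
    push_cast
    rw [mul_div_mul_left _ _ e1]

theorem Gv_ne {k : ℕ} {x : Pt k} (hx : Adm x) (i : Fin k) : Gv x i ≠ 0 := by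
  have h1 : (0 : ℝ) < x.1 := by exact_mod_cast hx.1
  have h2 : (0 : ℝ) < x.2 i := by exact_mod_cast (hx.2.1 i).1
  have h3 : ((x.2 i : ℂ) / (x.1 : ℂ)) = (((x.2 i : ℝ) / (x.1 : ℝ) : ℝ) : ℂ) := by push_cast; rfl
  unfold Gv
  rw [h3]
  apply Complex.Gamma_ne_zero_of_re_pos
  rw [Complex.ofReal_re]
  exact div_pos h2 h1

/-- the value of a specialised polynomial -/
theorem eval_spec {k : ℕ} (g z : Fin k → ℂ) (J : Finset (Fin k)) (P : MvPolynomial (Fin k) ℂ) :
    eval z (spec g J P) = eval (fun i => if i ∈ J then z i else g i) P := by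
  unfold spec
  have e : ((eval z).comp ((aeval (fun i => if i ∈ J then (X i : MvPolynomial (Fin k) ℂ) else C (g i)) :
      MvPolynomial (Fin k) ℂ →ₐ[ℂ] MvPolynomial (Fin k) ℂ)).toRingHom) =
        eval (fun i => if i ∈ J then z i else g i) := by
    apply MvPolynomial.ringHom_ext
    · intro c
      simp
    · intro s
      simp only [RingHom.comp_apply, AlgHom.toRingHom_eq_coe, RingHom.coe_coe, aeval_X, eval_X]
      split_ifs
      · rw [eval_X]
      · rw [eval_C]
  exact congrArg (fun f => f P) e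

theorem zr_pV {k n d H : ℕ} (hH : 1 ≤ H) {P : Fin n → MvPolynomial (Fin k) ℂ}
    (hP : ∀ j, (P j).totalDegree ≤ d) {x : Pt k} (hx : Adm x) (y : Fin n → ℤ)
    (hy : ∀ j, |y j| ≤ (H : ℤ)) (hz : Zr (∑ j, C ((y j : ℤ) : ℂ) * P j) x) :
    ZrU (KK0 k n) (PV d P) (pV H x y) := by
  classical
  have hH0 : (H : ℂ) ≠ 0 := Nat.cast_ne_zero.2 (by omega)
  have hVl : ∀ i : Fin k, VV (KK0 k n) (Fin.castAdd n i) (xp (pV H x y) (Fin.castAdd n i)) =
      (Gv x i)⁻¹ := by
    intro i
    rw [VV_mem (castAdd_mem _ _ i), xp_left hH]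
    rfl
  have hVr : ∀ j : Fin n, 2 * VV (KK0 k n) (Fin.natAdd k j) (xp (pV H x y) (Fin.natAdd k j)) - 1 =
      ((y j : ℤ) : ℂ) / (H : ℂ) := by
    intro j
    rw [VV_not (natAdd_not_mem _ _ _)]
    exact xp_right hH x hx.1 y j (hy j)
  refine ⟨?_, ?_⟩
  · rw [eval_PV hP (Gv x) (Gv_ne hx) (H : ℂ) y (fun i => VV (KK0 k n) i (xp (pV H x y) i)) hVl hVr,
      hz.1, mul_zero]
  · intro J hJK hJ hcon
    obtain ⟨J', hJ'⟩ : ∃ J' : Finset (Fin k), J' = Finset.univ.filter
        (fun i => Fin.castAdd n i ∈ J) := ⟨_, rfl⟩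
    have hmem : ∀ i, i ∈ J' ↔ Fin.castAdd n i ∈ J := fun i => by rw [hJ']; simp
    have hJne : J'.Nonempty := by
      obtain ⟨s, hs⟩ := hJ
      obtain ⟨i, rfl⟩ := mem_KK0 (hJK hs)
      exact ⟨i, (hmem i).2 hs⟩
    refine hz.2 J' hJne ?_
    refine funext_set (fun _ => ({0}ᶜ : Set ℂ)) (fun _ => ?_) (fun z hz' => ?_)
    · exact infinite_of_mem_nhds (1 : ℂ) (isOpen_compl_singleton.mem_nhds one_ne_zero)
    · rw [map_zero, eval_spec]
      have hz0 : ∀ i, z i ≠ 0 := fun i => hz' i (Set.mem_univ i)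
      obtain ⟨u, hu⟩ : ∃ u : Fin k → ℂ, u = fun i => if i ∈ J' then z i else Gv x i := ⟨_, rfl⟩
      have hu0 : ∀ i, u i ≠ 0 := by
        intro i
        rw [hu]
        simp only
        split_ifs
        · exact hz0 i
        · exact Gv_ne hx i
      rw [← hu]
      obtain ⟨w, hw⟩ : ∃ w : Fin (k + n) → ℂ, w = Fin.append (fun i => (z i)⁻¹) (fun _ => 0) := ⟨_, rfl⟩
      have hcomp : eval w (aeval (fun s => if s ∈ J then (X s : MvPolynomial (Fin (k + n)) ℂ) else
            C (VV (KK0 k n) s (xp (pV H x y) s))) (PV d P)) =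
          eval (fun s => if s ∈ J then w s else VV (KK0 k n) s (xp (pV H x y) s)) (PV d P) := by
        have e : ((eval w).comp ((aeval (fun s => if s ∈ J then
            (X s : MvPolynomial (Fin (k + n)) ℂ) else C (VV (KK0 k n) s (xp (pV H x y) s))) :
              MvPolynomial (Fin (k + n)) ℂ →ₐ[ℂ] MvPolynomial (Fin (k + n)) ℂ)).toRingHom) =
            eval (fun s => if s ∈ J then w s else VV (KK0 k n) s (xp (pV H x y) s)) := by
          apply MvPolynomial.ringHom_ext
          · intro c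
            simp
          · intro s
            simp only [RingHom.comp_apply, AlgHom.toRingHom_eq_coe, RingHom.coe_coe, aeval_X, eval_X]
            split_ifs
            · rw [eval_X]
            · rw [eval_C]
        exact congrArg (fun f => f (PV d P)) e
      have hcon' : aeval (fun s => if s ∈ J then (X s : MvPolynomial (Fin (k + n)) ℂ) else
          C (VV (KK0 k n) s (xp (pV H x y) s))) (PV d P) = 0 := by
        convert hcon
      rw [hcon', map_zero] at hcomp
      have hkey := eval_PV hP u hu0 (H : ℂ) y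
        (fun s => if s ∈ J then w s else VV (KK0 k n) s (xp (pV H x y) s)) (fun i => ?_) (fun j => ?_)
      · rw [← hcomp] at hkey
        have h1 : (H : ℂ)⁻¹ * (∏ i, (u i)⁻¹ ^ d) ≠ 0 :=
          mul_ne_zero (inv_ne_zero hH0) (Finset.prod_ne_zero_iff.2 fun i _ =>
            pow_ne_zero _ (inv_ne_zero (hu0 i)))
        exact (mul_eq_zero.1 hkey.symm).resolve_left h1
      · rw [hu]
        simp only
        by_cases hi : i ∈ J'
        · rw [if_pos ((hmem i).1 hi), if_pos hi, hw, Fin.append_left]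
        · rw [if_neg (fun h => hi ((hmem i).2 h)), if_neg hi, hVl i]
      · rw [if_neg (fun h => natAdd_not_mem _ _ _ (hJK h)), hVr j]

end Pool.Agent.Helper94.AXV
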