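import Pool.Agent.Helper94.AXV.V2

/-! # AXV-V3: the uniform theorem for linear families -/

namespace Pool.Agent.Helper94.AXV

open MvPolynomial Pool.Agent.Helper94.AXG Pool.Agent.Helper49.AXQ Pool.Agent.Helper94.AXW

/-- the quotients `a_i / q` determine an admissible point -/
theorem adm_inj {k : ℕ} (hk : 1 ≤ k) {x x' : Pt k} (hx : Adm x) (hx' : Adm x')
    (h : ∀ i, ((x.2 i : ℂ) / (x.1 : ℂ)) = ((x'.2 i : ℂ) / (x'.1 : ℂ))) : x = x' := by
  have hq : (x.1 : ℂ) ≠ 0 := Nat.cast_ne_zero.2 (by have := hx.1; omega)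
  have hq' : (x'.1 : ℂ) ≠ 0 := Nat.cast_ne_zero.2 (by have := hx'.1; omega)
  have h1 : ∀ i, x.2 i * x'.1 = x'.2 i * x.1 := by
    intro i
    have h2 := h i
    rw [div_eq_div_iff hq hq'] at h2
    exact_mod_cast h2
  obtain ⟨i₀, -⟩ : ∃ i₀ : Fin k, i₀ = ⟨0, hk⟩ := ⟨_, rfl⟩
  have h2 : x.1 = x'.1 := by
    refine Nat.dvd_antisymm ?_ ?_
    · have h3 : x.1 ∣ x.2 i₀ * x'.1 := ⟨x'.2 i₀, by rw [h1 i₀]; ring⟩
      exact (hx.2.1 i₀).2.2.symm.dvd_of_dvd_mul_left h3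
    · have h3 : x'.1 ∣ x'.2 i₀ * x.1 := ⟨x.2 i₀, by rw [← h1 i₀]; ring⟩
      exact (hx'.2.1 i₀).2.2.symm.dvd_of_dvd_mul_left h3
  refine Prod.ext h2 (funext fun i => ?_)
  have h3 := h1 i
  rw [h2] at h3
  exact Nat.eq_of_mul_eq_mul_right (by have := hx'.1; omega) h3

/-- the uniform theorem for linear families -/
theorem uniformV {k : ℕ} (hk : 1 ≤ k) (n d : ℕ) {ε : ℝ} (hε : 0 < ε) : ∃ C : ℝ, 0 ≤ C ∧
    ∀ Q H : ℕ, 1 ≤ Q → 1 ≤ H → ∀ P : Fin n → MvPolynomial (Fin k) ℂ, (∀ j, (P j).totalDegree ≤ d) →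
      ∀ T : Finset (Pt k), (∀ x ∈ T, Adm x ∧ x.1 ≤ Q ∧
        ∃ y : Fin n → ℤ, (∀ j, |y j| ≤ (H : ℤ)) ∧ Zr (∑ j, MvPolynomial.C ((y j : ℤ) : ℂ) * P j) x) →
          (T.card : ℝ) ≤ C * ((Q : ℝ) * (H : ℝ)) ^ ε := by
  classical
  obtain ⟨C, hC⟩ := uniformU (KK0 k n) (k * d + 1) hε
  have hC0 : 0 ≤ C := by
    have h := hC 1 le_rfl 0 (by rw [totalDegree_zero]; exact Nat.zero_le _) ∅ (by simp) (by simp)
    simpa using h
  refine ⟨C * 2 ^ ε, by positivity, fun Q H hQ hH P hP T hT => ?_⟩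
  choose hA hQx hy using hT
  choose! y hy1 hy2 using hy
  have hinj : ∀ x ∈ T, ∀ x' ∈ T, (fun j : KK0 k n => xp (pV H x (y x)) j) =
      (fun j : KK0 k n => xp (pV H x' (y x')) j) → x = x' := by
    intro x hx x' hx' h
    refine adm_inj hk (hA x hx) (hA x' hx') fun i => ?_
    have h1 := congrFun h ⟨Fin.castAdd n i, castAdd_mem _ _ i⟩
    simp only at h1
    rw [xp_left hH, xp_left hH] at h1
    exact h1
  have hinj' : Set.InjOn (fun x => pV H x (y x)) (T : Set (Pt k)) := by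
    intro x hx x' hx' h
    refine hinj x hx x' hx' ?_
    have h' : pV H x (y x) = pV H x' (y x') := h
    rw [h']
  have h := hC (2 * H * Q) (by
      have : 1 ≤ H * Q := Nat.mul_pos hH hQ
      nlinarith) (PV d P) (PV_deg d P) (T.image (fun x => pV H x (y x))) (by
    intro u hu u' hu' huu
    rw [Finset.mem_coe, Finset.mem_image] at hu hu'
    obtain ⟨x, hx, rfl⟩ := hu
    obtain ⟨x', hx', rfl⟩ := hu'
    rw [hinj x hx x' hx' huu]) (by
    intro u hu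
    rw [Finset.mem_image] at hu
    obtain ⟨x, hx, rfl⟩ := hu
    refine ⟨adm_pV hH (hA x hx) _ (hy1 x hx), Nat.mul_le_mul_left _ (hQx x hx), ?_⟩
    exact zr_pV hH hP (hA x hx) _ (hy1 x hx) (hy2 x hx))
  rw [Finset.card_image_of_injOn hinj'] at h
  refine h.trans (le_of_eq ?_)
  have h1 : ((2 * H * Q : ℕ) : ℝ) = 2 * ((Q : ℝ) * (H : ℝ)) := by
    push_cast
    ring
  rw [h1, Real.mul_rpow (by norm_num) (by positivity)]
  ring

end Pool.Agent.Helper94.AXV
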