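import Pool.Agent.Helper94.AXV.V3
import Pool.Agent.Helper94.AXG.Y8

/-! # AXV-V4: minimal related sets, heights up to a power of the level -/

namespace Pool.Agent.Helper94.AXV

open MvPolynomial Pool.Agent.Helper94.AXG Pool.Agent.Helper49.AXQ Pool.Agent.Helper94.AXW

/-- the exponents with entries `≤ d` -/
abbrev EO (k d : ℕ) : Type := Option (Fin k) → Fin (d + 1)

/-- the exponent -/
noncomputable def exO {k d : ℕ} (ν : EO k d) : Option (Fin k) →₀ ℕ :=
  Finsupp.equivFunOnFinite.symm (fun o => (ν o : ℕ))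

theorem exO_apply {k d : ℕ} (ν : EO k d) (o : Option (Fin k)) : exO ν o = (ν o : ℕ) := rfl

theorem sum_exO {k d : ℕ} {P : MvPolynomial (Option (Fin k)) ℤ} (hP : P.totalDegree ≤ d) :
    P = ∑ ν : EO k d, monomial (exO ν) (coeff (exO ν) P) := by
  classical
  have hinj : Function.Injective (exO : EO k d → _) := by
    intro ν μ h
    funext i
    apply Fin.ext
    have := DFunLike.congr_fun h i
    simpa [exO_apply] using this
  have hsub : P.support ⊆ Finset.univ.image (exO : EO k d → _) := by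
    intro m hm
    have hle : ∀ o, m o ≤ d := by
      intro o
      refine le_trans ?_ (le_trans (le_totalDegree hm) hP)
      rw [Finsupp.sum]
      by_cases hi : o ∈ m.support
      · exact Finset.single_le_sum (f := fun j => m j) (fun _ _ => Nat.zero_le _) hi
      · rw [Finsupp.notMem_support_iff.mp hi]; exact Nat.zero_le _
    rw [Finset.mem_image]
    refine ⟨fun i => ⟨m i, Nat.lt_succ_of_le (hle i)⟩, Finset.mem_univ _, ?_⟩
    ext i
    rfl
  conv_lhs => rw [← support_sum_monomial_coeff P]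
  rw [Finset.sum_subset hsub, Finset.sum_image (fun a _ b _ h => hinj h)]
  intro m _ hm
  rw [notMem_support_iff.mp hm, monomial_zero]

theorem piSub_monomial {σ : Type} (ν : Option σ →₀ ℕ) (c : ℤ) :
    piSub (monomial ν c : MvPolynomial (Option σ) ℤ) =
      C ((c : ℤ) : ℂ) * piSub (monomial ν 1 : MvPolynomial (Option σ) ℤ) := by
  have h1 : (monomial ν c : MvPolynomial (Option σ) ℤ) = C c * monomial ν 1 := by
    rw [C_mul_monomial, mul_one]
  rw [h1]
  unfold piSub
  rw [map_mul, MvPolynomial.aeval_C]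
  congr 1

/-- the members of the family -/
noncomputable def famP (k d : ℕ) (j : Fin (Fintype.card (EO k d))) : MvPolynomial (Fin k) ℂ :=
  piSub (monomial (exO ((Fintype.equivFin (EO k d)).symm j)) 1 : MvPolynomial (Option (Fin k)) ℤ)

theorem famP_deg (k d : ℕ) (j : Fin (Fintype.card (EO k d))) :
    (famP k d j).totalDegree ≤ (k + 1) * d := by
  unfold famP
  refine (piSub_deg _).trans ?_
  refine (totalDegree_monomial_le _ _).trans ?_
  rw [Finsupp.sum_fintype _ _ (fun _ => rfl)]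
  calc ∑ o : Option (Fin k), exO ((Fintype.equivFin (EO k d)).symm j) o ≤ ∑ _o : Option (Fin k), d :=
        Finset.sum_le_sum fun o _ => by
          rw [exO_apply]
          exact Nat.lt_succ_iff.mp (Fin.is_lt _)
    _ = (k + 1) * d := by simp

theorem piSub_eq {k d : ℕ} {P : MvPolynomial (Option (Fin k)) ℤ} (hP : P.totalDegree ≤ d) :
    piSub P = ∑ j : Fin (Fintype.card (EO k d)),
      C (((coeff (exO ((Fintype.equivFin (EO k d)).symm j)) P : ℤ)) : ℂ) * famP k d j := by
  have h1 : piSub P = ∑ ν : EO k d, piSub (monomial (exO ν) (coeff (exO ν) P)) := by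
    conv_lhs => rw [sum_exO hP]
    unfold piSub
    rw [map_sum]
  rw [h1, ← (Fintype.equivFin (EO k d)).symm.sum_comp]
  refine Finset.sum_congr rfl fun j _ => ?_
  rw [piSub_monomial]
  rfl

open Classical in
/-- the point of a pair (level, set) -/
private noncomputable def ptV4 (k : ℕ) (x : ℕ × Finset ℕ) : Pt k :=
  if h : x.2.card = k then (x.1, fun i : Fin k => x.2.orderEmbOfFin h i) else (0, fun _ => 0)

private theorem ptV4_eq {k : ℕ} {x : ℕ × Finset ℕ} (h : x.2.card = k) :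
    ptV4 k x = (x.1, fun i : Fin k => x.2.orderEmbOfFin h i) := dif_pos h

private theorem ptV4_inj {k : ℕ} {x y : ℕ × Finset ℕ} (hx : x.2.card = k) (hy : y.2.card = k)
    (h : ptV4 k x = ptV4 k y) : x = y := by
  rw [ptV4_eq hx, ptV4_eq hy, Prod.mk.injEq] at h
  obtain ⟨h1, h2⟩ := h
  refine Prod.ext h1 ?_
  have h3 : Set.range (x.2.orderEmbOfFin hx) = Set.range (y.2.orderEmbOfFin hy) :=
    congrArg Set.range h2
  rw [Finset.range_orderEmbOfFin, Finset.range_orderEmbOfFin] at h3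
  exact_mod_cast h3

/-- the number of minimal related pairs -/
theorem count_posV {k : ℕ} (hk : 1 ≤ k) (d : ℕ) {ε : ℝ} (hε : 0 < ε) : ∃ C : ℝ, 0 ≤ C ∧
    ∀ Q H : ℕ, 1 ≤ Q → 1 ≤ H → (MinSet k d H Q).Finite ∧
      ((MinSet k d H Q).ncard : ℝ) ≤ C * ((Q : ℝ) * (H : ℝ)) ^ ε := by
  classical
  obtain ⟨C, hC0, hC⟩ := uniformV hk (Fintype.card (EO k d)) ((k + 1) * d) hε
  refine ⟨C, hC0, fun Q H hQ hH => ?_⟩
  have hfin : (MinSet k d H Q).Finite := by
    obtain ⟨_, _, h⟩ := count_pos hk d (ε := 1) one_pos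
    exact (h Q H hQ).1
  refine ⟨hfin, ?_⟩
  have hinj : Set.InjOn (ptV4 k) (hfin.toFinset : Set (ℕ × Finset ℕ)) := by
    intro x hx y hy hxy
    rw [Finset.mem_coe, Set.Finite.mem_toFinset] at hx hy
    exact ptV4_inj hx.2.2.1 hy.2.2.1 hxy
  have h := hC Q H hQ hH (famP k d) (famP_deg k d) (hfin.toFinset.image (ptV4 k)) (by
    intro z hz
    rw [Finset.mem_image] at hz
    obtain ⟨x, hx, rfl⟩ := hz
    rw [Set.Finite.mem_toFinset] at hx
    obtain ⟨h1, h2, h3, h4, h5, h6⟩ := hx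
    obtain ⟨P, hP, hP0⟩ := dep_fin h3 h5
    rw [ptV4_eq h3]
    refine ⟨adm_of_res h1 h3 h4, h2,
      fun j => coeff (exO ((Fintype.equivFin (EO k d)).symm j)) P, fun j => hP.2.2 _, ?_⟩
    rw [← piSub_eq hP.2.1]
    exact zr_of_minimal h3 hP hP0 h6)
  rw [Finset.card_image_of_injOn hinj] at h
  rw [Set.ncard_eq_toFinset_card _ hfin]
  exact h

/-- the same for all `k` -/
theorem count_minimalV (k d : ℕ) {ε : ℝ} (hε : 0 < ε) : ∃ C : ℝ, 0 ≤ C ∧
    ∀ Q H : ℕ, 1 ≤ Q → 1 ≤ H → (MinSet k d H Q).Finite ∧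
      ((MinSet k d H Q).ncard : ℝ) ≤ C * ((Q : ℝ) * (H : ℝ)) ^ ε := by
  rcases Nat.eq_zero_or_pos k with rfl | hk
  · refine ⟨0, le_rfl, fun Q H _ _ => ?_⟩
    rw [minSet_zero]
    exact ⟨Set.finite_empty, by simp⟩
  · exact count_posV hk d hε

end Pool.Agent.Helper94.AXV
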