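import Pool.Agent.Helper94.AXV.V4
import Pool.Agent.Helper94.AXG.Y8B

/-! # AXV-V5: levels and the diagonal form -/

namespace Pool.Agent.Helper94.AXV

open MvPolynomial Filter Topology Pool.Agent.Helper94.AXG

/-- levels -/
theorem count_levelsV (k d : ℕ) {ε : ℝ} (hε : 0 < ε) : ∃ C : ℝ, 0 ≤ C ∧ ∀ Q H : ℕ, 1 ≤ Q → 1 ≤ H →
    ({q : ℕ | 1 ≤ q ∧ q ≤ Q ∧ ∃ J : Finset ℕ, J.card ≤ k ∧ Res q J ∧ Dep d H q J}.ncard : ℝ) ≤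
      C * ((Q : ℝ) * (H : ℝ)) ^ ε := by
  classical
  choose C hC0 hCB using fun j => count_minimalV j d hε
  refine ⟨∑ j ∈ Finset.range (k + 1), C j, Finset.sum_nonneg fun j _ => hC0 j, ?_⟩
  intro Q H hQ hH
  let S : ℕ → Finset (ℕ × Finset ℕ) := fun j => (hCB j Q H hQ hH).1.toFinset
  let T : Finset ℕ := (Finset.range (k + 1)).biUnion fun j => (S j).image Prod.fst
  have hsub : {q : ℕ | 1 ≤ q ∧ q ≤ Q ∧ ∃ J : Finset ℕ, J.card ≤ k ∧ Res q J ∧ Dep d H q J} ⊆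
      (T : Set ℕ) := by
    rintro q ⟨h1, h2, J, hJk, hR, hD⟩
    have hne : (J.powerset.filter fun J' => Dep d H q J').Nonempty :=
      ⟨J, Finset.mem_filter.2 ⟨Finset.mem_powerset_self J, hD⟩⟩
    obtain ⟨J', hJ', hmin⟩ := Finset.exists_min_image _ Finset.card hne
    rw [Finset.mem_filter, Finset.mem_powerset] at hJ'
    have hR' : Res q J' := ⟨fun a ha => hR.1 a (hJ'.1 ha),
      fun a ha b hb => hR.2 a (hJ'.1 ha) b (hJ'.1 hb)⟩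
    have hcard : J'.card ≤ k := (Finset.card_le_card hJ'.1).trans hJk
    refine Finset.mem_coe.2 (Finset.mem_biUnion.2 ⟨J'.card, Finset.mem_range.2 (by omega),
      Finset.mem_image.2 ⟨(q, J'), ?_, rfl⟩⟩)
    refine (hCB J'.card Q H hQ hH).1.mem_toFinset.2 ⟨h1, h2, rfl, hR', hJ'.2, ?_⟩
    intro J'' hss hD''
    have h3 := hmin J'' (Finset.mem_filter.2
      ⟨Finset.mem_powerset.2 (hss.1.trans hJ'.1), hD''⟩)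
    exact absurd (Finset.card_lt_card hss) (not_lt.2 h3)
  have hle : {q : ℕ | 1 ≤ q ∧ q ≤ Q ∧ ∃ J : Finset ℕ, J.card ≤ k ∧ Res q J ∧
      Dep d H q J}.ncard ≤ T.card := by
    have h := Set.ncard_le_ncard hsub T.finite_toSet
    rwa [Set.ncard_coe_finset] at h
  have hT : T.card ≤ ∑ j ∈ Finset.range (k + 1), (S j).card :=
    Finset.card_biUnion_le.trans (Finset.sum_le_sum fun j _ => Finset.card_image_le)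
  have hSj : ∀ j ∈ Finset.range (k + 1), ((S j).card : ℝ) ≤ C j * ((Q : ℝ) * (H : ℝ)) ^ ε := by
    intro j _
    have h1 := (hCB j Q H hQ hH).2
    rw [Set.ncard_eq_toFinset_card _ (hCB j Q H hQ hH).1] at h1
    exact h1
  calc ({q : ℕ | 1 ≤ q ∧ q ≤ Q ∧ ∃ J : Finset ℕ, J.card ≤ k ∧ Res q J ∧
        Dep d H q J}.ncard : ℝ) ≤ ∑ j ∈ Finset.range (k + 1), ((S j).card : ℝ) := by
        exact_mod_cast hle.trans hT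
    _ ≤ ∑ j ∈ Finset.range (k + 1), C j * ((Q : ℝ) * (H : ℝ)) ^ ε := Finset.sum_le_sum hSj
    _ = (∑ j ∈ Finset.range (k + 1), C j) * ((Q : ℝ) * (H : ℝ)) ^ ε := by
        rw [Finset.sum_mul]

/-- diagonal form: heights up to `Q ^ m(Q)` -/
theorem count_diagV : ∃ m : ℕ → ℕ, Tendsto m atTop atTop ∧ ∀ ε : ℝ, 0 < ε → ∃ C : ℝ, ∀ Q : ℕ, 1 ≤ Q →
    ({q : ℕ | 1 ≤ q ∧ q ≤ Q ∧ ∃ J : Finset ℕ, J.card ≤ m Q ∧ Res q J ∧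
      Dep (m Q) (Q ^ m Q) q J}.ncard : ℝ) ≤ C * (Q : ℝ) ^ ε := by
  have h0 : ∀ n : ℕ, ∃ C : ℝ, 0 ≤ C ∧ (1 ≤ n → ∀ Q : ℕ, 1 ≤ Q →
      ({q : ℕ | 1 ≤ q ∧ q ≤ Q ∧ ∃ J : Finset ℕ, J.card ≤ n ∧ Res q J ∧ Dep n (Q ^ n) q J}.ncard : ℝ) ≤
        C * (Q : ℝ) ^ ((n : ℝ)⁻¹)) := by
    intro n
    by_cases hn : 1 ≤ n
    · have hn0 : (0 : ℝ) < n := by exact_mod_cast hn
      have hn1 : (0 : ℝ) < (n : ℝ) + 1 := by linarith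
      have hn' : (0 : ℝ) < ((n : ℝ) * ((n : ℝ) + 1))⁻¹ := by positivity
      obtain ⟨C, hC0, h⟩ := count_levelsV n n hn'
      refine ⟨C, hC0, fun _ Q hQ => ?_⟩
      refine (h Q (Q ^ n) hQ (Nat.one_le_pow _ _ hQ)).trans (le_of_eq ?_)
      have hQ0 : (0 : ℝ) ≤ Q := Nat.cast_nonneg Q
      have e1 : ((Q : ℝ) * ((Q ^ n : ℕ) : ℝ)) = (Q : ℝ) ^ ((n : ℝ) + 1) := by
        have e2 : ((n : ℝ) + 1) = ((n + 1 : ℕ) : ℝ) := by push_cast; ring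
        rw [e2, Real.rpow_natCast]
        push_cast
        ring
      rw [e1, ← Real.rpow_mul hQ0]
      congr 2
      field_simp
    · exact ⟨0, le_rfl, fun h => absurd h hn⟩
  choose Cf hCf0 hf using h0
  obtain ⟨m, hm, hev⟩ := exists_diag Cf
  refine ⟨m, hm, fun ε hε => ?_⟩
  have hev2 : ∀ᶠ Q : ℕ in atTop, ⌈2 / ε⌉₊ ≤ m Q := hm.eventually_ge_atTop _
  obtain ⟨Q₀, hQ₀⟩ := (hev.and hev2).exists_forall_of_atTop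
  refine ⟨(Q₀ : ℝ) + 1, fun Q hQ => ?_⟩
  have hQ1 : (1 : ℝ) ≤ Q := by exact_mod_cast hQ
  have hQe : (1 : ℝ) ≤ (Q : ℝ) ^ ε := Real.one_le_rpow hQ1 hε.le
  have hQ00 : (0 : ℝ) ≤ Q₀ := Nat.cast_nonneg _
  by_cases hc : Q₀ ≤ Q
  · obtain ⟨⟨h1, h2⟩, h3⟩ := hQ₀ Q hc
    have hmpos : (0 : ℝ) < (m Q : ℝ) := by exact_mod_cast h1
    have hQp : (0 : ℝ) ≤ (Q : ℝ) ^ ((m Q : ℝ)⁻¹) := Real.rpow_nonneg (by linarith) _
    have hexp : (m Q : ℝ)⁻¹ + (m Q : ℝ)⁻¹ ≤ ε := by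
      have h4 : 2 / ε ≤ (m Q : ℝ) := (Nat.le_ceil _).trans (by exact_mod_cast h3)
      have h5 : 2 ≤ (m Q : ℝ) * ε := by
        rw [div_le_iff₀ hε] at h4
        exact h4
      have h6 : (m Q : ℝ)⁻¹ + (m Q : ℝ)⁻¹ = 2 / (m Q : ℝ) := by ring
      rw [h6, div_le_iff₀ hmpos]
      linarith
    calc ({q : ℕ | 1 ≤ q ∧ q ≤ Q ∧ ∃ J : Finset ℕ, J.card ≤ m Q ∧ Res q J ∧
          Dep (m Q) (Q ^ m Q) q J}.ncard : ℝ)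
        ≤ Cf (m Q) * (Q : ℝ) ^ ((m Q : ℝ)⁻¹) := hf (m Q) h1 Q hQ
      _ ≤ (Q : ℝ) ^ ((m Q : ℝ)⁻¹) * (Q : ℝ) ^ ((m Q : ℝ)⁻¹) :=
          mul_le_mul_of_nonneg_right h2 hQp
      _ = (Q : ℝ) ^ ((m Q : ℝ)⁻¹ + (m Q : ℝ)⁻¹) := by
          rw [← Real.rpow_add (by linarith)]
      _ ≤ (Q : ℝ) ^ ε := Real.rpow_le_rpow_of_exponent_le hQ1 hexp
      _ ≤ ((Q₀ : ℝ) + 1) * (Q : ℝ) ^ ε := by nlinarith
  · have hsub : {q : ℕ | 1 ≤ q ∧ q ≤ Q ∧ ∃ J : Finset ℕ, J.card ≤ m Q ∧ Res q J ∧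
        Dep (m Q) (Q ^ m Q) q J} ⊆ ((Finset.Icc 1 Q : Finset ℕ) : Set ℕ) := by
      rintro q ⟨h1, h2, -⟩
      simp only [Finset.coe_Icc, Set.mem_Icc]
      exact ⟨h1, h2⟩
    have hcard := Set.ncard_le_ncard hsub (Finset.finite_toSet _)
    rw [Set.ncard_coe_finset, Nat.card_Icc] at hcard
    have h2 : ({q : ℕ | 1 ≤ q ∧ q ≤ Q ∧ ∃ J : Finset ℕ, J.card ≤ m Q ∧ Res q J ∧
        Dep (m Q) (Q ^ m Q) q J}.ncard : ℝ) ≤ (Q₀ : ℝ) := by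
      have : {q : ℕ | 1 ≤ q ∧ q ≤ Q ∧ ∃ J : Finset ℕ, J.card ≤ m Q ∧ Res q J ∧
        Dep (m Q) (Q ^ m Q) q J}.ncard ≤ Q₀ := by omega
      exact_mod_cast this
    nlinarith

end Pool.Agent.Helper94.AXV
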