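import Pool.Agent.Helper94.AXV.V5

/-! # AXV-V6: one exceptional set -/

namespace Pool.Agent.Helper94.AXV

open MvPolynomial Filter Topology Pool.Agent.Helper94.AXG

theorem Dep.mono {d d' H H' q : ℕ} {J : Finset ℕ} (h : Dep d H q J) (hd : d ≤ d') (hH : H ≤ H') :
    Dep d' H' q J := by
  obtain ⟨P, h1, h2, h3, h4⟩ := h
  exact ⟨P, h1, h2.trans hd, fun ν => (h3 ν).trans (by exact_mod_cast hH), h4⟩

/-- a monotone lower bound tending to infinity -/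
theorem exists_mono {m : ℕ → ℕ} (hm : Tendsto m atTop atTop) :
    ∃ m' : ℕ → ℕ, Tendsto m' atTop atTop ∧ Monotone m' ∧ ∀ Q, m' Q ≤ m Q := by
  have hne : ∀ Q : ℕ, (m '' Set.Ici Q).Nonempty := fun Q => ⟨m Q, Q, Set.self_mem_Ici, rfl⟩
  refine ⟨fun Q => sInf (m '' Set.Ici Q), ?_, ?_, ?_⟩
  · rw [tendsto_atTop]
    intro b
    obtain ⟨Q₀, hQ₀⟩ := (hm.eventually_ge_atTop b).exists_forall_of_atTop
    filter_upwards [eventually_ge_atTop Q₀] with Q hQ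
    obtain ⟨Q', hQ', h⟩ := Nat.sInf_mem (hne Q)
    rw [← h]
    exact hQ₀ Q' (hQ.trans hQ')
  · intro Q Q' h
    obtain ⟨Q'', hQ'', h'⟩ := Nat.sInf_mem (hne Q')
    change sInf (m '' Set.Ici Q) ≤ sInf (m '' Set.Ici Q')
    rw [← h']
    exact Nat.sInf_le ⟨Q'', h.trans hQ'', rfl⟩
  · intro Q
    exact Nat.sInf_le ⟨Q, Set.self_mem_Ici, rfl⟩

/-- one exceptional set: outside of it, the relations have heights larger than every power of the level -/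
theorem exceptional_set : ∃ E : Set ℕ,
    (∀ ε : ℝ, 0 < ε → ∃ C : ℝ, ∀ Q : ℕ, 1 ≤ Q →
      ({q : ℕ | 1 ≤ q ∧ q ≤ Q ∧ q ∈ E}.ncard : ℝ) ≤ C * (Q : ℝ) ^ ε) ∧
    ∀ k d A : ℕ, ∃ q₀ : ℕ, ∀ q : ℕ, q₀ ≤ q → q ∉ E →
      ∀ J : Finset ℕ, J.card ≤ k → Res q J → ¬ Dep d (q ^ A) q J := by
  obtain ⟨m, hm, h⟩ := count_diagV
  obtain ⟨m', hm', hmono, hle⟩ := exists_mono hm
  refine ⟨{q : ℕ | ∃ J : Finset ℕ, J.card ≤ m' q ∧ Res q J ∧ Dep (m' q) (q ^ m' q) q J},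
    fun ε hε => ?_, fun k d A => ?_⟩
  · obtain ⟨C, hC⟩ := h ε hε
    refine ⟨C, fun Q hQ => le_trans ?_ (hC Q hQ)⟩
    have hfin : {q : ℕ | 1 ≤ q ∧ q ≤ Q ∧ ∃ J : Finset ℕ, J.card ≤ m Q ∧ Res q J ∧
        Dep (m Q) (Q ^ m Q) q J}.Finite :=
      (Set.finite_Iic Q).subset fun q hq => hq.2.1
    have hsub : {q : ℕ | 1 ≤ q ∧ q ≤ Q ∧ q ∈ {q : ℕ | ∃ J : Finset ℕ, J.card ≤ m' q ∧ Res q J ∧
        Dep (m' q) (q ^ m' q) q J}} ⊆ {q : ℕ | 1 ≤ q ∧ q ≤ Q ∧ ∃ J : Finset ℕ, J.card ≤ m Q ∧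
          Res q J ∧ Dep (m Q) (Q ^ m Q) q J} := by
      rintro q ⟨h1, h2, J, h3, h4, h5⟩
      have h6 : m' q ≤ m Q := (hmono h2).trans (hle Q)
      refine ⟨h1, h2, J, h3.trans h6, h4, Dep.mono h5 h6 ?_⟩
      exact (Nat.pow_le_pow_left h2 _).trans (Nat.pow_le_pow_right hQ h6)
    exact_mod_cast Set.ncard_le_ncard hsub hfin
  · obtain ⟨q₀, hq₀⟩ := (hm'.eventually_ge_atTop (max k (max d A))).exists_forall_of_atTop
    refine ⟨max q₀ 1, fun q hq hqE J hJ hR hD => hqE ⟨J, ?_, hR, ?_⟩⟩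
    · have h1 := hq₀ q ((le_max_left _ _).trans hq)
      exact hJ.trans ((le_max_left _ _).trans h1)
    · have h1 := hq₀ q ((le_max_left _ _).trans hq)
      have h2 : 1 ≤ q := (le_max_right _ _).trans hq
      refine Dep.mono hD ((le_max_left _ _).trans ((le_max_right k (max d A)).trans h1)) ?_
      exact Nat.pow_le_pow_right h2 ((le_max_right _ _).trans ((le_max_right k (max d A)).trans h1))

end Pool.Agent.Helper94.AXV
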